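import Pool.Agent.Helper317.NoCh

/-!
There is a model of `RCA₀ + BΣ₂ + ¬IΣ₂` with a `Π₂` set `X` and a sequence in the model of pairwise
disjoint finite sets, each meeting `X`, without any choice function definable in the model.
-/

namespace Pool.Agent.Results.MP_0d2548_lc.NoDefinableChoice

open Pool.Agent.Helper317.SOA

/-- The negated form of the question holds, already with `n = 2`: some model `M` of
`RCA₀ + BΣ₂ + ¬IΣ₂`, some `Π₂` set `X` (with parameters) and some sequence, coded by a set `Z` of
`M`, of pairwise disjoint `M`-finite sets `A s`, each of them meeting `X`, are such that no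
function definable in `M` (number and set quantifiers and parameters allowed) picks an element
of `A s ∩ X` for every `s`. -/
theorem result : ∃ M : Model, RCA0 M ∧ BSigma 2 M ∧ ¬ ISigma 2 M ∧
    ∃ (X : Set M.Num) (A : M.Num → Set M.Num) (Z : Set M.Num),
      M.PiSet 2 X ∧ M.FinSeq Z A ∧ (∀ s t, s ≠ t → Disjoint (A s) (A t)) ∧
      (∀ s, (A s ∩ X).Nonempty) ∧
      ∀ f : M.Num → M.Num, M.DefFun f → ¬ ∀ s, f s ∈ A s ∩ X := by
  obtain ⟨M, h1, h2, h3, X, A, Z, h4, h5, h6, h7, h8⟩ := Pool.Agent.Helper317.SOA.main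
  refine ⟨M, h1, h2, h3, X, A, Z, h4, h5, h6, h7, fun f hf h => ?_⟩
  obtain ⟨s, hs⟩ := h8 f hf
  exact hs (h s)

end Pool.Agent.Results.MP_0d2548_lc.NoDefinableChoice
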